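import Mathlib
import Pool.Agent.NRM.NormForm
import Pool.Agent.NRN.Main

set_option autoImplicit false

namespace Pool.Agent.Results.MP_d4938b_nt.NormEquations

open MvPolynomial NumberField IsDedekindDomain

/-- The forms of degree `d` in `n + 1` variables over the ring of integers of the number field `K`, all
conjugates of whose coefficients have absolute value at most `H`. -/
def forms (K : Type) [Field K] (n d H : ℕ) : Set (MvPolynomial (Fin (n + 1)) (𝓞 K)) :=
  {f | f.IsHomogeneous d ∧ ∀ e, ∀ σ : K →+* ℂ, ‖σ ((f.coeff e : 𝓞 K) : K)‖ ≤ H}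

/-- The value at the point `x` with coordinates in the extension `L` of `K` of a polynomial with
coefficients in the ring of integers of `K`. -/
noncomputable def value {K : Type} [Field K] {s : ℕ} {L : Type} [Field L] [Algebra K L]
    (x : Fin s → L) (f : MvPolynomial (Fin s) (𝓞 K)) : L :=
  eval₂ ((algebraMap K L).comp (algebraMap (𝓞 K) K)) x f

/-- The form `g` of degree `D` is a product of `D` linear forms over the algebraic closure of `K`, which
have no common zero except `0`. -/
def IsDecomposable {K : Type} [Field K] {r : ℕ} (D : ℕ) (g : MvPolynomial (Fin r) (𝓞 K)) : Prop :=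
  ∃ l : Fin D → Fin r → AlgebraicClosure K,
    (∀ w : Fin r → AlgebraicClosure K, value w g = ∏ i, ∑ j, l i j * w j) ∧
    ∀ w : Fin r → AlgebraicClosure K, (∀ i, ∑ j, l i j * w j = 0) → w = 0

/-- `P = (x, w)` is a point with `x ≠ 0` of `g(w) = f(x)`, with coordinates in the extension `L` of
`K`. -/
def IsPoint {K : Type} [Field K] {n r : ℕ} (g : MvPolynomial (Fin r) (𝓞 K))
    (f : MvPolynomial (Fin (n + 1)) (𝓞 K)) {L : Type} [Field L] [Algebra K L]
    (P : (Fin (n + 1) → L) × (Fin r → L)) : Prop :=
  P.1 ≠ 0 ∧ value P.2 g = value P.1 f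

/-- The variety `g(w) = f(x)`, `x ≠ 0` (a hypersurface in the open subset `x ≠ 0` of the weighted
projective space with the coordinates `x` of weight `1` and `w` of weight `m`, if `g` is a form of degree
`D` and `f` is a form of degree `D * m`) satisfies the Jacobian criterion: at every point `(x, w)` over
the algebraic closure of `K` some partial derivative of `g` or of `f` is not zero. -/
def IsSmooth {K : Type} [Field K] {n r : ℕ} (g : MvPolynomial (Fin r) (𝓞 K))
    (f : MvPolynomial (Fin (n + 1)) (𝓞 K)) : Prop :=
  ∀ P : (Fin (n + 1) → AlgebraicClosure K) × (Fin r → AlgebraicClosure K), IsPoint g f P →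
    (∃ j, value P.2 (pderiv j g) ≠ 0) ∨ ∃ t, value P.1 (pderiv t f) ≠ 0

/-- The variety `g(w) = f(x)`, `x ≠ 0`, has a point with coordinates in the extension `L` of `K`. -/
def HasPoint {K : Type} [Field K] {n r : ℕ} (g : MvPolynomial (Fin r) (𝓞 K))
    (f : MvPolynomial (Fin (n + 1)) (𝓞 K)) (L : Type) [Field L] [Algebra K L] : Prop :=
  ∃ P : (Fin (n + 1) → L) × (Fin r → L), IsPoint g f P

/-- The variety `g(w) = f(x)`, `x ≠ 0`, has points over all completions of the number field `K`. -/
def HasLocalPoints {K : Type} [Field K] [NumberField K] {n r : ℕ} (g : MvPolynomial (Fin r) (𝓞 K))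
    (f : MvPolynomial (Fin (n + 1)) (𝓞 K)) : Prop :=
  (∀ v : InfinitePlace K, HasPoint g f v.Completion) ∧
    ∀ v : HeightOneSpectrum (𝓞 K), HasPoint g f (v.adicCompletion K)

/-- The points `P = (x, w)` and `Q = (y, u)` over `L` are `η`-close: for some `t` the coordinates
`(t x, t ^ m w)` of `P` are near the coordinates `(y, u)` of `Q`, namely `|t x - y| ≤ η |y|` and
`|t ^ m w - u| ^ D ≤ η |f| |y| ^ (D m)`, where `|y|`, `|u|` and `|f|` are the largest absolute values of
the coordinates of `y`, of the coordinates of `u` and of the coefficients of `f`. -/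
def IsClose {K : Type} [Field K] {n r : ℕ} {L : Type} [NormedField L] [Algebra K L] (D m : ℕ)
    (f : MvPolynomial (Fin (n + 1)) (𝓞 K)) (η : ℝ) (P Q : (Fin (n + 1) → L) × (Fin r → L)) : Prop :=
  ∃ t : L, (∀ i, ‖t * P.1 i - Q.1 i‖ ≤ η * ‖Q.1‖) ∧ ∃ e, ∀ j,
    ‖t ^ m * P.2 j - Q.2 j‖ ^ D ≤ η * ‖algebraMap K L (f.coeff e : 𝓞 K)‖ * ‖Q.1‖ ^ (D * m)

/-- The point `Q = (y, u)` over `L` is in the bounded set `η |u| ^ D ≤ |f| |y| ^ (D m)`; every point is in
this set if `η` is small. -/
def IsBounded {K : Type} [Field K] {n r : ℕ} {L : Type} [NormedField L] [Algebra K L] (D m : ℕ)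
    (f : MvPolynomial (Fin (n + 1)) (𝓞 K)) (η : ℝ) (Q : (Fin (n + 1) → L) × (Fin r → L)) : Prop :=
  ∃ e, ∀ j, η * ‖Q.2 j‖ ^ D ≤ ‖algebraMap K L (f.coeff e : 𝓞 K)‖ * ‖Q.1‖ ^ (D * m)

/-- The points over `K` of `g(w) = f(x)`, `x ≠ 0`, are `η`-dense in the product of the bounded sets
`η |u| ^ D ≤ |f| |y| ^ (D m)` of points `(y, u)` over the completions of `K` at the finite places in `S`
and at all infinite places: any points `z v`, `y v` of these sets are `η`-close to one point over
`K`. -/
def IsDense {K : Type} [Field K] [NumberField K] {n r : ℕ} (D m : ℕ)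
    (S : Finset (HeightOneSpectrum (𝓞 K))) (η : ℝ) (g : MvPolynomial (Fin r) (𝓞 K))
    (f : MvPolynomial (Fin (n + 1)) (𝓞 K)) : Prop :=
  ∀ (z : (v : HeightOneSpectrum (𝓞 K)) →
      (Fin (n + 1) → v.adicCompletion K) × (Fin r → v.adicCompletion K))
    (y : (v : InfinitePlace K) → (Fin (n + 1) → v.Completion) × (Fin r → v.Completion)),
    (∀ v ∈ S, IsPoint g f (z v) ∧ IsBounded D m f η (z v)) →
    (∀ v, IsPoint g f (y v) ∧ IsBounded D m f η (y v)) →
    ∃ P : (Fin (n + 1) → K) × (Fin r → K), IsPoint g f P ∧
      (∀ v ∈ S, IsClose D m f η (fun i => algebraMap K (v.adicCompletion K) (P.1 i),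
        fun j => algebraMap K (v.adicCompletion K) (P.2 j)) (z v)) ∧
      ∀ v, IsClose D m f η (fun i => algebraMap K v.Completion (P.1 i),
        fun j => algebraMap K v.Completion (P.2 j)) (y v)

/-- Norm forms satisfy `IsDecomposable`: if `ω 1, ..., ω r` are linearly independent elements of a finite
extension `L` of `K` and `g(w)` is the norm of `w 1 ω 1 + ... + w r ω r`, then `g` is a product of
linear forms without a common zero. -/
theorem isDecomposable_norm (K : Type) [Field K] [CharZero K] (L : Type) [Field L] [Algebra K L]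
    [FiniteDimensional K L] {r : ℕ} (ω : Fin r → L) (hω : LinearIndependent K ω)
    (g : MvPolynomial (Fin r) (𝓞 K))
    (hg : ∀ w : Fin r → K, value w g = Algebra.norm K (∑ j, w j • ω j)) :
    IsDecomposable (Module.finrank K L) g :=
  Pool.Agent.NRM.NormForm_dec K L ω hω g hg

/-- The Hasse principle and weak approximation for one hundred percent of the equations `g(w) = f(x)`
over a number field `K`, where `g` is a fixed form of degree `D ≥ 2` in `r` variables and `f` is a form
of degree `D * m` in `n + 1 ≥ 2` variables.  Assume that `n ≥ 2` and `m * (D - 1) ≤ n`, or that `g` is a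
product of linear forms over the algebraic closure without a common zero (for example a norm form), that
the equation is of Fano type, `m * D ≤ n + m * r`, and that `n ≥ 2` or `r = D` (so there is no condition at
all on `m` and on `n ≥ 1` for the norm form of an extension of degree `D = r` of `K`; for `n = 1` this is
the equation `N(w) = f(x 0, x 1)`).  Order the forms `f` over the ring of integers of `K` by the size of
their coefficients.  The `f` for which the variety `g(w) = f(x)`, `x ≠ 0`, is smooth and has points over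
all completions of `K` are a positive proportion, and for every finite set `S` of finite places and every
`η > 0` their number is asymptotically equal to the number of the `f` for which this variety is smooth
and has a point over `K`, and its points over `K` are `η`-dense in the product of the (bounded) sets of
points over the completions at the places in `S` and at all infinite places. -/
theorem result (K : Type) [Field K] [NumberField K] (n r D m : ℕ) (hn : 1 ≤ n) (hD : 2 ≤ D)
    (hm : 1 ≤ m) (g : MvPolynomial (Fin r) (𝓞 K)) (hg : g.IsHomogeneous D) (hg0 : g ≠ 0)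
    (hF : (2 ≤ n ∧ m * (D - 1) ≤ n) ∨
      (IsDecomposable D g ∧ m * D ≤ n + m * r ∧ (2 ≤ n ∨ r = D))) :
    (∃ c : ℝ, 0 < c ∧ ∀ᶠ H : ℕ in Filter.atTop, c * ((forms K n (D * m) H).ncard : ℝ) ≤
      ({f ∈ forms K n (D * m) H | IsSmooth g f ∧ HasLocalPoints g f}.ncard : ℝ)) ∧
    ∀ (S : Finset (HeightOneSpectrum (𝓞 K))) (η : ℝ), 0 < η → Filter.Tendsto (fun H : ℕ =>
      ({f ∈ forms K n (D * m) H |
        IsSmooth g f ∧ HasPoint g f K ∧ IsDense D m S η g f}.ncard : ℝ) /
      ({f ∈ forms K n (D * m) H | IsSmooth g f ∧ HasLocalPoints g f}.ncard : ℝ))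
      Filter.atTop (nhds 1) :=
  Pool.Agent.NRN.main_all K n r D m hn hD hm g hg hg0 hF

end Pool.Agent.Results.MP_d4938b_nt.NormEquations
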